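import Mathlib
import Pool.Agent.H.MP_892d82_al.Main

set_option autoImplicit false

namespace Pool.Agent.Results.MP_892d82_al.Holds

theorem result (G : Type*) [Group G] [Fintype G]
    (hG : ∀ N : Subgroup G, N.Normal → Odd N.index → N = ⊤) :
    ∃ l : List (G × ℝ), (∀ x ∈ l, 0 ≤ x.2 ∧ x.2 ≤ 1) ∧
      (l.map fun x : G × ℝ =>
          (MonoidAlgebra.single (1 : G) ((1 - x.2 : ℝ) : ℂ) +
            MonoidAlgebra.single x.1 ((x.2 : ℝ) : ℂ) : MonoidAlgebra ℂ G)).prod =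
        (Fintype.card G : ℂ)⁻¹ • ∑ g : G, MonoidAlgebra.single g (1 : ℂ) :=
  Pool.Agent.H.MP_892d82_al.main G hG

end Pool.Agent.Results.MP_892d82_al.Holds
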